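import Pool.Agent.H55.PM.Targets

/-!
# Module GR of the board pm_modules (MP_9198c9_nt)
-/

set_option autoImplicit false

open Finset

namespace Pool.Agent.H67.PM

open Pool.Agent.H55.PM

theorem pf_gr : T_GR := by
  intro u t₀ hu T hT
  induction T, hT using Nat.le_induction with
  | base =>
    intro r hr
    refine ⟨fun _ => 0, r, fun t => by simp, hr, by simp⟩
  | succ T hT ih =>
    intro r hr
    obtain ⟨h1, h2⟩ := hu T hT
    have hpos : 0 < u T := by
      rcases Nat.eq_zero_or_pos (u T) with h | h
      · rw [h] at h1; omega
      · exact h
    have hmod : r % u T < u T := Nat.mod_lt _ hpos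
    obtain ⟨d, r', hd, hr', he⟩ := ih (r % u T) (lt_of_lt_of_le hmod h2)
    have hq : r / u T ≤ 3 := by
      have : r < u T * 4 := by
        rw [pow_succ] at hr; omega
      have := Nat.div_lt_of_lt_mul this
      omega
    refine ⟨fun t => if t = T then r / u T else d t, r', ?_, hr', ?_⟩
    · intro t
      by_cases h : t = T
      · simp [h, hq]
      · simp [h, hd t]
    · rw [Finset.sum_Ico_succ_top hT]
      have hs : ∑ t ∈ Ico t₀ T, (if t = T then r / u T else d t) * u t
          = ∑ t ∈ Ico t₀ T, d t * u t := by
        apply Finset.sum_congr rfl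
        intro t ht
        have : t ≠ T := by
          have := (Finset.mem_Ico.mp ht).2
          omega
        simp [this]
      rw [hs]
      simp only [if_true]
      have h3 := Nat.div_add_mod r (u T)
      rw [Nat.mul_comm (u T)] at h3
      omega

end Pool.Agent.H67.PM
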