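import Pool.Agent.H55.PM.Targets

/-!
# Module PR of the board pm_modules (MP_9198c9_nt)
-/

set_option autoImplicit false

open Finset

namespace Pool.Agent.H67.PM

open Pool.Agent.H55.PM

theorem clog_bound (a : ℕ) (ha : 0 < a) :
    a ≤ 2 ^ Nat.clog 2 a ∧ 2 ^ Nat.clog 2 a < 2 * a := by
  refine ⟨Nat.le_pow_clog (by norm_num) a, ?_⟩
  rcases Nat.lt_or_ge 1 a with h | h
  · have h1 := Nat.pow_pred_clog_lt_self (b := 2) (by norm_num) h
    have h2 : 0 < Nat.clog 2 a := Nat.clog_pos (by norm_num) h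
    have h3 : Nat.clog 2 a = (Nat.clog 2 a).pred + 1 := by
      rw [Nat.pred_eq_sub_one]; omega
    rw [h3, pow_succ]
    omega
  · have : a = 1 := by omega
    subst this
    simp

theorem pf_pr : T_PP → T_GR → T_PR := by
  intro hPP hGR A A₀ F t₀ K₀ s hA₀ hF hs hK n hn
  have hub : ∀ t ≥ t₀, 2 ^ t < 2 * (s t * 2 ^ (t - Nat.clog 2 (s t))) ∧
      s t * 2 ^ (t - Nat.clog 2 (s t)) ≤ 2 ^ t := by
    intro t ht
    obtain ⟨h1, -, -, h4⟩ := hs t ht
    obtain ⟨h5, h6⟩ := clog_bound (s t) h1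
    have h7 : 2 ^ t = 2 ^ Nat.clog 2 (s t) * 2 ^ (t - Nat.clog 2 (s t)) := by
      rw [← pow_add]; congr 1; omega
    have h8 : 0 < 2 ^ (t - Nat.clog 2 (s t)) := by positivity
    rw [h7]
    constructor
    · rw [← mul_assoc]
      exact Nat.mul_lt_mul_of_pos_right h6 h8
    · exact Nat.mul_le_mul_right _ h5
  have hr : n - F < 2 ^ (t₀ + (n - F)) :=
    lt_of_lt_of_le Nat.lt_two_pow_self (Nat.pow_le_pow_right (by norm_num) (by omega))
  obtain ⟨d, r', hd, hr', he⟩ := hGR (fun t => s t * 2 ^ (t - Nat.clog 2 (s t))) t₀ hub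
    (t₀ + (n - F)) (by omega) (n - F) hr
  set T := t₀ + (n - F) with hT
  obtain ⟨m0, hm0⟩ := hF (r' + F) (by omega)
  have hm0le : ∀ a ∈ A₀, m0 a ≤ K₀ := by
    intro a ha
    have h1 : m0 a * a ≤ ∑ a ∈ A₀, m0 a * a :=
      Finset.single_le_sum (f := fun a => m0 a * a) (fun _ _ => Nat.zero_le _) ha
    have h2 : m0 a ≤ m0 a * a := Nat.le_mul_of_pos_right _ (hA₀ a ha).1
    omega
  have hdisj : Disjoint A₀ (image s (Ico t₀ T)) := by
    rw [Finset.disjoint_right]
    intro a ha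
    obtain ⟨t, ht, rfl⟩ := Finset.mem_image.mp ha
    exact (hs t (Finset.mem_Ico.mp ht).1).2.2.1
  refine hPP A (MS s t₀ K₀) n (A₀ ∪ image s (Ico t₀ T))
    (fun a => if a ∈ A₀ then m0 a else mu s d t₀ T a) ?_ ?_ ?_
  · intro a ha
    rcases Finset.mem_union.mp ha with h | h
    · exact hA₀ a h
    · obtain ⟨t, ht, rfl⟩ := Finset.mem_image.mp h
      have := hs t (Finset.mem_Ico.mp ht).1
      exact ⟨this.1, this.2.1⟩
  · intro a ha
    by_cases h : a ∈ A₀
    · simp only [h, if_true]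
      rcases Nat.eq_zero_or_pos (m0 a) with h0 | h0
      · exact Or.inl h0
      · exact Or.inr ⟨h0, Or.inl (hm0le a h)⟩
    · simp only [h, if_false]
      rcases Nat.eq_zero_or_pos (mu s d t₀ T a) with h0 | h0
      · exact Or.inl h0
      · exact Or.inr ⟨h0, Or.inr ⟨a, T, d, hd, rfl⟩⟩
  · rw [Finset.sum_union hdisj]
    have e1 : ∑ a ∈ A₀, (if a ∈ A₀ then m0 a else mu s d t₀ T a) * a = r' + F := by
      rw [← hm0]
      apply Finset.sum_congr rfl
      intro a ha
      simp [ha]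
    have e2 : ∑ a ∈ image s (Ico t₀ T), (if a ∈ A₀ then m0 a else mu s d t₀ T a) * a
        = ∑ t ∈ Ico t₀ T, d t * (s t * 2 ^ (t - Nat.clog 2 (s t))) := by
      rw [← Finset.sum_fiberwise_of_maps_to (s := Ico t₀ T) (t := image s (Ico t₀ T)) (g := s)
        (fun t ht => Finset.mem_image_of_mem s ht)]
      apply Finset.sum_congr rfl
      intro a ha
      have hna : a ∉ A₀ := Finset.disjoint_right.mp hdisj ha
      simp only [hna, if_false, mu]
      rw [Finset.sum_mul]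
      apply Finset.sum_congr rfl
      intro t ht
      have : s t = a := (Finset.mem_filter.mp ht).2
      rw [this]
      ring
    rw [e1, e2]
    have he' : n - F = ∑ t ∈ Ico t₀ T, d t * (s t * 2 ^ (t - Nat.clog 2 (s t))) + r' := he
    omega

end Pool.Agent.H67.PM
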